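import Mathlib

/-!
Roots, isolators and total orders on groups, for an arbitrary set `N` of exponents.
-/

namespace Pool.Agent.Y477.DC

universe u v w

/-- Every element has an `n`-th root, for every positive `n ∈ N`. -/
def IsDiv (N : Set ℕ) (D : Type*) [Group D] : Prop :=
  ∀ n ∈ N, 0 < n → ∀ d : D, ∃ x : D, x ^ n = d

/-- A subgroup `J` is `N`-isolated if `g ^ n ∈ J` with `n ∈ N` positive forces `g ∈ J`. -/
def Isolated (N : Set ℕ) {T : Type*} [Group T] (J : Subgroup T) : Prop :=
  ∀ n ∈ N, 0 < n → ∀ g : T, g ^ n ∈ J → g ∈ J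

/-- The `N`-isolator of `S`: the smallest `N`-isolated subgroup containing `S`. -/
def isolator (N : Set ℕ) {T : Type*} [Group T] (S : Subgroup T) : Subgroup T :=
  sInf {J : Subgroup T | S ≤ J ∧ Isolated N J}

/-- The group has a total order for which left and right multiplications are monotone. -/
def Orderable (H : Type*) [Group H] : Prop :=
  ∃ _ : LinearOrder H, MulLeftMono H ∧ MulRightMono H

/-- The homomorphism `i : G →* H` exhibits the ordered group `H` as a minimal `N`-divisible
completion of the ordered group `G`: it is strictly increasing, `H` has `n`-th roots for `n ∈ N`, and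
`H` is the `N`-isolator of the image of `G`. -/
def IsCompletion (N : Set ℕ) {G : Type u} {H : Type v} [Group G] [LinearOrder G] [Group H]
    [LinearOrder H] (i : G →* H) : Prop :=
  StrictMono i ∧ IsDiv N H ∧ isolator N i.range = ⊤

/-- The ordered group `G` has a strictly increasing homomorphism to an ordered group with `n`-th
roots for all `n ∈ N`. -/
def Completable (N : Set ℕ) (G : Type u) [Group G] [LinearOrder G] : Prop :=
  ∃ (D : Type v) (_ : Group D) (_ : LinearOrder D) (_ : MulLeftMono D) (_ : MulRightMono D)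
    (j : G →* D), StrictMono j ∧ IsDiv N D

/-- The minimal completion `κ : G →* K` is universal: every minimal completion `h : G →* H` is the
image of `K` under a homomorphism over `G`. -/
def Universal (N : Set ℕ) {G : Type u} {K : Type w} [Group G] [LinearOrder G] [Group K]
    [LinearOrder K] (κ : G →* K) : Prop :=
  IsCompletion N κ ∧
    ∀ (H : Type v) [Group H] [LinearOrder H] [MulLeftMono H] [MulRightMono H] (h : G →* H),
      IsCompletion N h → ∃ φ : K →* H, Function.Surjective φ ∧ φ.comp κ = h

section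

variable {T : Type*} [Group T] {N : Set ℕ}

theorem le_isolator (S : Subgroup T) : S ≤ isolator N S :=
  le_sInf fun _ hJ => hJ.1

theorem isolated_isolator (S : Subgroup T) : Isolated N (isolator N S) := by
  intro n hN hn g hg
  rw [isolator, Subgroup.mem_sInf] at hg ⊢
  intro J hJ
  exact hJ.2 n hN hn g (hg J hJ)

theorem isolator_le {S J : Subgroup T} (h : S ≤ J) (hJ : Isolated N J) : isolator N S ≤ J :=
  sInf_le ⟨h, hJ⟩

theorem Orderable.root_unique (hT : Orderable T) {x y : T} {n : ℕ} (hn : 0 < n)
    (h : x ^ n = y ^ n) : x = y := by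
  obtain ⟨_, h1, h2⟩ := hT
  have hs : StrictMono (fun z : T => z ^ n) := pow_left_strictMono (by omega)
  exact hs.injective h

theorem Orderable.of_injective {A : Type*} {B : Type*} [Group A] [Group B] (f : A →* B)
    (hf : Function.Injective f) (hB : Orderable B) : Orderable A := by
  obtain ⟨lo, h1, h2⟩ := hB
  let lo' : LinearOrder A := LinearOrder.lift' f hf
  have hle : ∀ a b : A, a ≤ b ↔ f a ≤ f b := fun _ _ => Iff.rfl
  refine ⟨lo', ⟨fun c a b hab => ?_⟩, ⟨fun c a b hab => ?_⟩⟩
  · change c * a ≤ c * b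
    rw [hle, map_mul, map_mul]
    exact mul_le_mul_right ((hle a b).1 hab) _
  · change a * c ≤ b * c
    rw [hle, map_mul, map_mul]
    exact mul_le_mul_left ((hle a b).1 hab) _

/-- The lexicographic order on a group with homomorphisms to three ordered groups, the last one
injective. -/
theorem lex3 {K : Type*} {A : Type*} {D : Type*} {P : Type*} [Group K]
    [Group A] [LinearOrder A] [MulLeftMono A] [MulRightMono A]
    [Group D] [LinearOrder D] [MulLeftMono D] [MulRightMono D]
    [Group P] [LinearOrder P] [MulLeftMono P] [MulRightMono P]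
    (a : K →* A) (d : K →* D) (p : K →* P) (hp : Function.Injective p) :
    ∃ (_ : LinearOrder K) (_ : MulLeftMono K) (_ : MulRightMono K),
      (∀ x y, a x < a y → x < y) ∧ (∀ x y, a x = a y → d x < d y → x < y) := by
  let F : K → A ×ₗ (D ×ₗ P) := fun x => toLex (a x, toLex (d x, p x))
  have hF : Function.Injective F := fun x y h => by
    have h1 : (a x, toLex (d x, p x)) = (a y, toLex (d y, p y)) := h
    have h2 : (d x, p x) = (d y, p y) := congrArg Prod.snd h1
    exact hp (congrArg Prod.snd h2)
  let lo' : LinearOrder K := LinearOrder.lift' F hF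
  have hlt : ∀ x y : K, x < y ↔ a x < a y ∨ a x = a y ∧ (d x < d y ∨ d x = d y ∧ p x < p y) := by
    intro x y
    have h1 : x < y ↔ F x < F y := Iff.rfl
    rw [h1, Prod.Lex.lt_iff]
    change a x < a y ∨ a x = a y ∧ toLex (d x, p x) < toLex (d y, p y) ↔ _
    rw [Prod.Lex.lt_iff]
    rfl
  refine ⟨lo', ⟨fun c x y hxy => ?_⟩, ⟨fun c x y hxy => ?_⟩, fun x y h => (hlt x y).2 (Or.inl h),
    fun x y h h' => (hlt x y).2 (Or.inr ⟨h, Or.inl h'⟩)⟩
  · rcases hxy.lt_or_eq with h | h
    · refine le_of_lt ((hlt _ _).2 ?_)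
      change a (c * x) < a (c * y) ∨ a (c * x) = a (c * y) ∧ (d (c * x) < d (c * y) ∨
        d (c * x) = d (c * y) ∧ p (c * x) < p (c * y))
      simp only [map_mul]
      rcases (hlt x y).1 h with h | ⟨h, h1 | ⟨h', h''⟩⟩
      · exact Or.inl (mul_lt_mul_right h _)
      · exact Or.inr ⟨by rw [h], Or.inl (mul_lt_mul_right h1 _)⟩
      · exact Or.inr ⟨by rw [h], Or.inr ⟨by rw [h'], mul_lt_mul_right h'' _⟩⟩
    · rw [h]
  · rcases hxy.lt_or_eq with h | h
    · refine le_of_lt ((hlt _ _).2 ?_)
      change a (x * c) < a (y * c) ∨ a (x * c) = a (y * c) ∧ (d (x * c) < d (y * c) ∨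
        d (x * c) = d (y * c) ∧ p (x * c) < p (y * c))
      simp only [map_mul]
      rcases (hlt x y).1 h with h | ⟨h, h1 | ⟨h', h''⟩⟩
      · exact Or.inl (mul_lt_mul_left h _)
      · exact Or.inr ⟨by rw [h], Or.inl (mul_lt_mul_left h1 _)⟩
      · exact Or.inr ⟨by rw [h], Or.inr ⟨by rw [h'], mul_lt_mul_left h'' _⟩⟩
    · rw [h]

end

end Pool.Agent.Y477.DC
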