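import Pool.Agent.Results.MP_d29ee2_al.UniversalCompletion
import Pool.Agent.Y477.DC.Defs

/-!
The reflection of a group in the class of the orderable groups with `n`-th roots, `n ∈ N`.
-/

namespace Pool.Agent.Y477.DC

open Pool.Agent.Results.MP_d29ee2_al.UniversalCompletion (RootTerm RootTerm.eval lexMulLeftMono
  lexMulRightMono)

universe u v w

section General

variable {N : Set ℕ}

/-- Homomorphisms to an orderable group which agree on a subset agree on its isolator. -/
theorem hom_eq {K : Type*} {H : Type*} {G : Type*} [Group K] [Group H] [Group G] (hH : Orderable H)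
    (κ : G →* K) (hκ : isolator N κ.range = ⊤) (φ ψ : K →* H) (h : φ.comp κ = ψ.comp κ) :
    φ = ψ := by
  have h1 : isolator N κ.range ≤ MonoidHom.eqLocus φ ψ := by
    apply isolator_le
    · rintro _ ⟨g, rfl⟩
      exact DFunLike.congr_fun h g
    · intro n _ hn g hg
      have h2 : φ (g ^ n) = ψ (g ^ n) := hg
      rw [map_pow, map_pow] at h2
      exact hH.root_unique hn h2
  rw [hκ] at h1
  ext x
  exact h1 (Subgroup.mem_top x)

/-- The image of a homomorphism is the isolator of the image of the generating subgroup. -/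
theorem range_eq {K : Type*} {H : Type*} {G : Type*} [Group K] [Group H] [Group G]
    (hH : Orderable H) (hK : IsDiv N K) (κ : G →* K) (hκ : isolator N κ.range = ⊤) (φ : K →* H) :
    φ.range = isolator N (φ.comp κ).range := by
  apply le_antisymm
  · have h1 : isolator N κ.range ≤ (isolator N (φ.comp κ).range).comap φ := by
      apply isolator_le
      · rintro _ ⟨g, rfl⟩
        exact le_isolator _ ⟨g, rfl⟩
      · intro n hN hn g hg
        have h2 : φ (g ^ n) ∈ isolator N (φ.comp κ).range := hg
        rw [map_pow] at h2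
        exact isolated_isolator _ n hN hn _ h2
    rw [hκ] at h1
    rintro _ ⟨x, rfl⟩
    exact h1 (Subgroup.mem_top x)
  · apply isolator_le
    · rintro _ ⟨g, rfl⟩
      exact ⟨κ g, rfl⟩
    · rintro n hN hn g ⟨y, hy⟩
      obtain ⟨x, hx⟩ := hK n hN hn y
      refine ⟨x, hH.root_unique hn ?_⟩
      rw [← map_pow, hx, hy]

end General

section Terms

variable (N : Set ℕ)

/-- All orderable groups with roots and a homomorphism from `G`, carried by a quotient of the type of
the root expressions. -/
structure Idx (G : Type u) [Group G] : Type u where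
  s : Setoid (RootTerm G)
  grp : Group (Quotient s)
  ord : Orderable (Quotient s)
  div : IsDiv N (Quotient s)
  k : G →* Quotient s

variable {N}

theorem eval_surjective {G : Type u} {H : Type v} [Group G] [Group H] (hH : Orderable H)
    (h : G →* H) (hc : isolator N h.range = ⊤) (r : ℕ → H → H)
    (hr : ∀ n ∈ N, 0 < n → ∀ d, r n d ^ n = d) : Function.Surjective (RootTerm.eval h r) := by
  let R : Subgroup H :=
    { carrier := Set.range (RootTerm.eval h r)
      one_mem' := ⟨.of 1, by simp [RootTerm.eval]⟩
      mul_mem' := by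
        rintro _ _ ⟨s, rfl⟩ ⟨t, rfl⟩
        exact ⟨.mul s t, rfl⟩
      inv_mem' := by
        rintro _ ⟨s, rfl⟩
        exact ⟨.inv s, rfl⟩ }
  have hR : R = ⊤ := by
    rw [eq_top_iff, ← hc]
    apply isolator_le
    · rintro _ ⟨g, rfl⟩
      exact ⟨.of g, rfl⟩
    · rintro n hN hn g ⟨s, hs⟩
      refine ⟨.root n s, ?_⟩
      apply hH.root_unique hn
      change r n (s.eval h r) ^ n = g ^ n
      rw [hr n hN hn, hs]
  intro x
  have : x ∈ R := by rw [hR]; trivial
  exact this

/-- Every orderable group with roots which is the isolator of the image of `G` is isomorphic to an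
indexed one. -/
theorem exists_idx {G : Type u} {H : Type v} [Group G] [Group H] (hH : Orderable H)
    (hdiv : IsDiv N H) (h : G →* H) (hc : isolator N h.range = ⊤) :
    ∃ (i : Idx N G), letI := i.grp; ∃ (e : Quotient i.s ≃* H), ∀ g, e (i.k g) = h g := by
  classical
  let r : ℕ → H → H := fun n d =>
    if hn : n ∈ N ∧ 0 < n then Classical.choose (hdiv n hn.1 hn.2 d) else 1
  have hr : ∀ n ∈ N, 0 < n → ∀ d, r n d ^ n = d := by
    intro n hN hn d
    have : r n d = Classical.choose (hdiv n hN hn d) := dif_pos ⟨hN, hn⟩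
    rw [this]
    exact Classical.choose_spec (hdiv n hN hn d)
  have hsurj := eval_surjective hH h hc r hr
  let s : Setoid (RootTerm G) := Setoid.ker (RootTerm.eval h r)
  let e : Quotient s ≃ H := Setoid.quotientKerEquivOfSurjective _ hsurj
  letI grp : Group (Quotient s) := e.group
  let em : Quotient s ≃* H := e.mulEquiv
  let k : G →* Quotient s := em.symm.toMonoidHom.comp h
  have hek : ∀ g, em (k g) = h g := fun g => em.apply_symm_apply (h g)
  refine ⟨⟨s, grp, hH.of_injective em.toMonoidHom em.injective, ?_, k⟩, em, hek⟩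
  intro n hN hn d
  obtain ⟨x, hx⟩ := hdiv n hN hn (em d)
  refine ⟨em.symm x, em.injective ?_⟩
  rw [map_pow, em.apply_symm_apply, hx]

end Terms

section Product

variable (N : Set ℕ) (G : Type u) [Group G]

instance instGrp (i : Idx N G) : Group (Quotient i.s) := i.grp

/-- The product of all the indexed groups. -/
abbrev Prd : Type u := ∀ i : Idx N G, Quotient i.s

/-- The diagonal. -/
def diag : G →* Prd N G where
  toFun g := fun i => i.k g
  map_one' := by funext i; exact map_one i.k
  map_mul' a b := by funext i; exact map_mul i.k a b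

/-- The reflection. -/
def Ref : Subgroup (Prd N G) := isolator N (diag N G).range

/-- The canonical map to the reflection. -/
def can : G →* Ref N G := (diag N G).codRestrict (Ref N G) fun g => le_isolator _ ⟨g, rfl⟩

variable {N G}

theorem orderable_prd : Orderable (Prd N G) := by
  classical
  letI : LinearOrder (Idx N G) := linearOrderOfSTO WellOrderingRel
  have : WellFoundedLT (Idx N G) := ⟨(WellOrderingRel.isWellOrder (α := Idx N G)).wf⟩
  choose lo hl hr using fun i : Idx N G => i.ord
  letI : ∀ i : Idx N G, LinearOrder (Quotient i.s) := lo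
  have h1 : ∀ i : Idx N G, MulLeftMono (Quotient i.s) := hl
  have h2 : ∀ i : Idx N G, MulRightMono (Quotient i.s) := hr
  have h3 : Orderable (Lex (∀ i : Idx N G, Quotient i.s)) :=
    ⟨inferInstance, lexMulLeftMono, lexMulRightMono⟩
  exact h3

theorem orderable_ref : Orderable (Ref N G) :=
  orderable_prd.of_injective (Ref N G).subtype (Ref N G).subtype_injective

theorem div_prd : IsDiv N (Prd N G) := by
  intro n hN hn d
  choose y hy using fun i : Idx N G => i.div n hN hn (d i)
  exact ⟨y, funext hy⟩

theorem div_ref : IsDiv N (Ref N G) := by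
  intro n hN hn x
  obtain ⟨y, hy⟩ := div_prd n hN hn (x : Prd N G)
  refine ⟨⟨y, isolated_isolator _ n hN hn y (by rw [hy]; exact x.2)⟩, ?_⟩
  apply Subtype.ext
  exact hy

theorem gen_ref : isolator N (can N G).range = ⊤ := by
  rw [eq_top_iff]
  intro x _
  rw [isolator, Subgroup.mem_sInf]
  rintro J ⟨hJ1, hJ2⟩
  have hmap : Ref N G ≤ J.map (Ref N G).subtype := by
    apply isolator_le
    · rintro _ ⟨g, rfl⟩
      exact ⟨can N G g, hJ1 ⟨g, rfl⟩, rfl⟩
    · rintro n hN hn g ⟨y, hy, hyg⟩
      have hg : g ∈ Ref N G := isolated_isolator _ n hN hn g (by rw [← hyg]; exact y.2)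
      refine ⟨⟨g, hg⟩, hJ2 n hN hn ⟨g, hg⟩ ?_, rfl⟩
      have : (⟨g, hg⟩ : Ref N G) ^ n = y := Subtype.ext (by
        change g ^ n = (y : Prd N G)
        exact hyg.symm)
      rw [this]; exact hy
  obtain ⟨y, hy, hyx⟩ := hmap x.2
  have : y = x := Subtype.ext hyx
  rw [← this]; exact hy

/-- The extension of a homomorphism to an orderable group with roots. -/
theorem exists_ext {H : Type v} [Group H] (hH : Orderable H) (hdiv : IsDiv N H) (f : G →* H) :
    ∃ φ : Ref N G →* H, φ.comp (can N G) = f := by
  have hI : Orderable (isolator N f.range) :=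
    hH.of_injective (isolator N f.range).subtype (isolator N f.range).subtype_injective
  have hD : IsDiv N (isolator N f.range) := by
    intro n hN hn x
    obtain ⟨y, hy⟩ := hdiv n hN hn (x : H)
    refine ⟨⟨y, isolated_isolator _ n hN hn y (by rw [hy]; exact x.2)⟩, ?_⟩
    apply Subtype.ext
    exact hy
  let f' : G →* isolator N f.range := f.codRestrict _ fun g => le_isolator _ ⟨g, rfl⟩
  have hgen : isolator N f'.range = ⊤ := by
    rw [eq_top_iff]
    intro x _
    refine Subgroup.mem_sInf.2 ?_
    rintro J ⟨hJ1, hJ2⟩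
    have hmap : isolator N f.range ≤ J.map (isolator N f.range).subtype := by
      apply isolator_le
      · rintro _ ⟨g, rfl⟩
        exact ⟨f' g, hJ1 ⟨g, rfl⟩, rfl⟩
      · rintro n hN hn g ⟨y, hy, hyg⟩
        have hg : g ∈ isolator N f.range :=
          isolated_isolator _ n hN hn g (by rw [← hyg]; exact y.2)
        refine ⟨⟨g, hg⟩, hJ2 n hN hn ⟨g, hg⟩ ?_, rfl⟩
        have : (⟨g, hg⟩ : isolator N f.range) ^ n = y := Subtype.ext (by
          change g ^ n = (y : H)
          exact hyg.symm)
        rw [this]; exact hy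
    obtain ⟨y, hy, hyx⟩ := hmap x.2
    have : y = x := Subtype.ext hyx
    rw [← this]; exact hy
  obtain ⟨i, e, he⟩ := exists_idx hI hD f' hgen
  let π : Ref N G →* Quotient i.s :=
    { toFun := fun x => (x : Prd N G) i
      map_one' := rfl
      map_mul' := fun _ _ => rfl }
  refine ⟨(isolator N f.range).subtype.comp (e.toMonoidHom.comp π), ?_⟩
  ext g
  change ((e (i.k g) : isolator N f.range) : H) = f g
  rw [he g]
  rfl

theorem ext_unique {H : Type v} [Group H] (hH : Orderable H) (hdiv : IsDiv N H) (f : G →* H) :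
    ∃! φ : Ref N G →* H, φ.comp (can N G) = f := by
  obtain ⟨φ, hφ⟩ := exists_ext hH hdiv f
  exact ⟨φ, hφ, fun ψ hψ => hom_eq hH (can N G) gen_ref ψ φ (hψ.trans hφ.symm)⟩

/-- The orders of the reflection. -/
theorem exists_order [LinearOrder G] (hG : Completable.{u, w} N G)
    {H : Type v} [Group H] [LinearOrder H] [MulLeftMono H] [MulRightMono H] (hdiv : IsDiv N H)
    (f : G →* H) (hf : Monotone f) :
    ∃ (_ : LinearOrder (Ref N G)) (_ : MulLeftMono (Ref N G)) (_ : MulRightMono (Ref N G)),
      IsCompletion N (can N G) ∧ ∀ φ : Ref N G →* H, φ.comp (can N G) = f → Monotone φ := by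
  obtain ⟨D, _, _, hl, hr, j, hj, hD⟩ := hG
  obtain ⟨a, ha⟩ := exists_ext ⟨inferInstance, inferInstance, inferInstance⟩ hdiv f
  obtain ⟨d, hd⟩ := exists_ext (N := N) ⟨inferInstance, hl, hr⟩ hD j
  obtain ⟨lo, h1, h2⟩ := orderable_ref (N := N) (G := G)
  obtain ⟨lo', h3, h4, h5, h6⟩ := lex3 a d (MonoidHom.id (Ref N G)) Function.injective_id
  refine ⟨lo', h3, h4, ⟨?_, div_ref, gen_ref⟩, ?_⟩
  · intro x y hxy
    have h7 : a (can N G x) = f x := DFunLike.congr_fun ha x
    have h8 : a (can N G y) = f y := DFunLike.congr_fun ha y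
    have h9 : d (can N G x) = j x := DFunLike.congr_fun hd x
    have h10 : d (can N G y) = j y := DFunLike.congr_fun hd y
    rcases (hf hxy.le).lt_or_eq with h | h
    · exact h5 _ _ (by rw [h7, h8]; exact h)
    · exact h6 _ _ (by rw [h7, h8]; exact h) (by rw [h9, h10]; exact hj hxy)
  · intro φ hφ x y hxy
    have h7 : φ = a := hom_eq ⟨inferInstance, inferInstance, inferInstance⟩ (can N G) gen_ref φ a
      (hφ.trans ha.symm)
    rw [h7]
    by_contra hc
    exact absurd (h5 _ _ (not_le.1 hc)) (not_lt.2 hxy)

end Product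

end Pool.Agent.Y477.DC
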